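import Mathlib

/-!
# Domains with the maximal condition on subalgebras: auxiliary results
-/

set_option autoImplicit false

namespace Pool.Agent.Helper877.Acc

theorem std_word {m : ℕ} (s : Fin m → Fin m) :
    (List.ofFn (fun i => FreeMonoid.of (s i))).prod = FreeMonoid.ofList (List.ofFn s) := by
  have h1 : (List.ofFn (fun i => FreeMonoid.of (s i))) = (List.ofFn s).map FreeMonoid.of := by
    rw [List.map_ofFn]
    rfl
  have h2 : (FreeMonoid.lift FreeMonoid.of : FreeMonoid (Fin m) →* FreeMonoid (Fin m)) = MonoidHom.id _ := by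
    ext x
    simp
  have h3 := DFunLike.congr_fun h2 (FreeMonoid.ofList (List.ofFn s))
  rw [FreeMonoid.lift_apply] at h3
  rw [h1]
  exact h3

theorem std_mono (K : Type) [Field K] {m : ℕ} (s : Fin m → Fin m) :
    (List.ofFn (fun i => MonoidAlgebra.of K (FreeMonoid (Fin m)) (FreeMonoid.of (s i)))).prod =
      MonoidAlgebra.single (FreeMonoid.ofList (List.ofFn s)) (1 : K) := by
  rw [← std_word s]
  have h1 := map_list_prod (MonoidAlgebra.of K (FreeMonoid (Fin m))) (List.ofFn (fun i => FreeMonoid.of (s i)))
  rw [List.map_ofFn] at h1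
  rw [MonoidAlgebra.of_apply] at h1
  rw [h1]
  rfl

open Equiv in
/-- the standard identity as an element of the free algebra -/
theorem std_poly (K : Type) [Field K] (m : ℕ) :
    ∃ f : FreeAlgebra K (Fin m), f ≠ 0 ∧ ∀ (A : Type) [Ring A] [Algebra K A] (v : Fin m → A),
      FreeAlgebra.lift K v f =
        ∑ σ : Equiv.Perm (Fin m), (Equiv.Perm.sign σ : ℤ) • (List.ofFn (fun i => v (σ i))).prod := by
  refine ⟨∑ σ : Equiv.Perm (Fin m), (Equiv.Perm.sign σ : ℤ) •
    (List.ofFn (fun i => FreeAlgebra.ι K (σ i))).prod, ?_, ?_⟩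
  · intro h
    have h1 := congrArg (FreeAlgebra.lift K
      (fun i => MonoidAlgebra.of K (FreeMonoid (Fin m)) (FreeMonoid.of i))) h
    rw [map_sum, map_zero] at h1
    have h2 : ∀ σ : Equiv.Perm (Fin m), FreeAlgebra.lift K
        (fun i => MonoidAlgebra.of K (FreeMonoid (Fin m)) (FreeMonoid.of i))
        ((Equiv.Perm.sign σ : ℤ) • (List.ofFn (fun i => FreeAlgebra.ι K (σ i))).prod) =
        (Equiv.Perm.sign σ : ℤ) • MonoidAlgebra.single (FreeMonoid.ofList (List.ofFn σ)) (1 : K) := by
      intro σ
      rw [map_zsmul, map_list_prod, List.map_ofFn, ← std_mono]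
      congr 3
      funext i
      simp
    rw [Finset.sum_congr rfl fun σ _ => h2 σ] at h1
    have h3 := congrArg (fun g : MonoidAlgebra K (FreeMonoid (Fin m)) =>
      g.coeff (FreeMonoid.ofList (List.ofFn (1 : Equiv.Perm (Fin m))))) h1
    beta_reduce at h3
    rw [MonoidAlgebra.coeff_sum, Finsupp.finsetSum_apply, Finset.sum_eq_single 1] at h3
    · simp at h3
    · intro σ _ hσ
      rw [MonoidAlgebra.coeff_smul, Finsupp.smul_apply, MonoidAlgebra.coeff_single,
        Finsupp.single_eq_of_ne, smul_zero]
      intro h4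
      apply hσ
      have h5 := List.ofFn_injective (FreeMonoid.ofList.injective h4)
      exact Equiv.Perm.ext fun x => (congrFun h5 x).symm
    · intro h4
      exact absurd (Finset.mem_univ _) h4
  · intro A _ _ v
    rw [map_sum]
    refine Finset.sum_congr rfl fun σ _ => ?_
    rw [map_zsmul, map_list_prod, List.map_ofFn]
    congr 3
    funext i
    simp

theorem std_vanish (F D : Type) [Field F] [Ring D] [Algebra F D] [Module.Finite F D] (m : ℕ)
    (hm : Module.finrank F D < m) (v : Fin m → D) :
    ∑ σ : Equiv.Perm (Fin m), (Equiv.Perm.sign σ : ℤ) • (List.ofFn (fun i => v (σ i))).prod = 0 := by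
  have hdep : ¬ LinearIndependent F v := by
    intro h
    have := h.fintype_card_le_finrank
    simp at this
    omega
  have h1 := AlternatingMap.map_linearDependent
    (MultilinearMap.alternatization (MultilinearMap.mkPiAlgebraFin F m D)) v hdep
  rw [MultilinearMap.alternatization_apply] at h1
  rw [← h1]
  apply Finset.sum_congr rfl
  intro σ _
  simp [MultilinearMap.mkPiAlgebraFin_apply, MultilinearMap.domDomCongr_apply, Units.smul_def]

theorem exists_central_mul (A : Type) [Ring A] [Nontrivial A] [NoZeroDivisors A]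
    (halg : ∀ a : A, ∃ p : Polynomial (Subring.center A), p ≠ 0 ∧ Polynomial.aeval a p = 0)
    (a : A) (ha : a ≠ 0) : ∃ b : A, ∃ c : A, c ∈ Subring.center A ∧ c ≠ 0 ∧ b * a = c := by
  have key : ∀ n : ℕ, ∀ p : Polynomial (Subring.center A), p ≠ 0 → p.natDegree ≤ n →
      Polynomial.aeval a p = 0 → ∃ b : A, ∃ c : A, c ∈ Subring.center A ∧ c ≠ 0 ∧ b * a = c := by
    intro n
    induction n with
    | zero =>
      intro p hp hd h0
      have h1 : p = Polynomial.C (p.coeff 0) := Polynomial.eq_C_of_natDegree_le_zero hd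
      rw [h1, Polynomial.aeval_C] at h0
      have h2 : p.coeff 0 ≠ 0 := by
        intro h
        apply hp
        rw [h1, h, Polynomial.C_0]
      exact absurd (Subtype.ext (by simpa using h0)) h2
    | succ n ih =>
      intro p hp hd h0
      have h1 := Polynomial.divX_mul_X_add p
      have h2 : Polynomial.aeval a p.divX * a + ((p.coeff 0 : Subring.center A) : A) = 0 := by
        have : Polynomial.aeval a (p.divX * Polynomial.X + Polynomial.C (p.coeff 0)) = 0 := by
          rw [h1]; exact h0
        rw [map_add, map_mul, Polynomial.aeval_X, Polynomial.aeval_C] at this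
        exact this
      by_cases hc : p.coeff 0 = 0
      · rw [hc] at h2
        have h3 : Polynomial.aeval a p.divX = 0 := by
          have h4 : Polynomial.aeval a p.divX * a = 0 := by simpa using h2
          rcases mul_eq_zero.1 h4 with h | h
          · exact h
          · exact absurd h ha
        have h5 : p.divX ≠ 0 := by
          intro h
          rw [h, hc] at h1
          apply hp
          rw [← h1]
          simp
        refine ih p.divX h5 ?_ h3
        rw [Polynomial.natDegree_divX_eq_natDegree_tsub_one]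
        omega
      · refine ⟨-(Polynomial.aeval a p.divX), ((p.coeff 0 : Subring.center A) : A), (p.coeff 0).2, ?_, ?_⟩
        · intro h
          exact hc (Subtype.ext h)
        · rw [neg_mul]
          exact neg_eq_of_add_eq_zero_right h2
  obtain ⟨p, hp, h0⟩ := halg a
  exact key _ p hp le_rfl h0

theorem to_division (A : Type) [Ring A] [Nontrivial A] [NoZeroDivisors A]
    (halg : ∀ a : A, ∃ p : Polynomial (Subring.center A), p ≠ 0 ∧ Polynomial.aeval a p = 0) :
    ∃ (D : Type) (_ : DivisionRing D) (i : A →+* D), Function.Injective i ∧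
      (∀ c ∈ Subring.center A, i c ∈ Subring.center D) ∧
      (∀ d : D, ∃ c ∈ Subring.center A, c ≠ 0 ∧ ∃ a : A, i c * d = i a) := by
  classical
  choose B C hC hC0 hBC using exists_central_mul A halg
  letI hO : OreLocalization.OreSet (nonZeroDivisors A) :=
    { ore_right_cancel := by
        intro r1 r2 s h
        refine ⟨1, ?_⟩
        have hs : (s : A) ≠ 0 := nonZeroDivisors.ne_zero s.2
        rw [mul_right_cancel₀ hs h]
      oreNum := fun r s => r * B (s : A) (nonZeroDivisors.ne_zero s.2)
      oreDenom := fun r s => ⟨C (s : A) (nonZeroDivisors.ne_zero s.2),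
        mem_nonZeroDivisors_of_ne_zero (hC0 _ _)⟩
      ore_eq := by
        intro r s
        show C (s : A) _ * r = r * B (s : A) _ * s
        rw [mul_assoc, hBC]
        exact (Subring.mem_center_iff.1 (hC _ _) r).symm }
  have hcan : ∀ (r : A) (s : nonZeroDivisors A),
      (OreLocalization.numeratorRingHom (s : A) : OreLocalization (nonZeroDivisors A) A) * OreLocalization.oreDiv r s =
        OreLocalization.numeratorRingHom r := by
    intro r s
    show (OreLocalization.oreDiv (s : A) 1 : OreLocalization (nonZeroDivisors A) A) * OreLocalization.oreDiv r s = OreLocalization.oreDiv r 1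
    exact OreLocalization.mul_cancel
  refine ⟨OreLocalization (nonZeroDivisors A) A, inferInstance, OreLocalization.numeratorRingHom, ?_, ?_, ?_⟩
  · exact OreLocalization.numeratorHom_inj inf_le_left
  · intro c hc
    rw [Subring.mem_center_iff]
    intro d
    induction d using OreLocalization.ind with | _ r s
    have h1 := hcan r s
    have hs : IsUnit (OreLocalization.numeratorRingHom (s : A) : OreLocalization (nonZeroDivisors A) A) :=
      OreLocalization.numerator_isUnit s
    apply hs.mul_left_cancel
    have hc1 := Subring.mem_center_iff.1 hc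
    calc (OreLocalization.numeratorRingHom (s : A) : OreLocalization (nonZeroDivisors A) A) * (OreLocalization.oreDiv r s * OreLocalization.numeratorRingHom c)
        = OreLocalization.numeratorRingHom r * OreLocalization.numeratorRingHom c := by rw [← mul_assoc, h1]
      _ = OreLocalization.numeratorRingHom c * OreLocalization.numeratorRingHom r := by
          rw [← map_mul, ← map_mul, hc1 r]
      _ = OreLocalization.numeratorRingHom c * (OreLocalization.numeratorRingHom (s : A) * OreLocalization.oreDiv r s) := by rw [h1]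
      _ = OreLocalization.numeratorRingHom (s : A) * (OreLocalization.numeratorRingHom c * OreLocalization.oreDiv r s) := by
          rw [← mul_assoc, ← mul_assoc, ← map_mul, ← map_mul, hc1 (s : A)]
  · intro d
    induction d using OreLocalization.ind with | _ r s
    have hs0 : (s : A) ≠ 0 := nonZeroDivisors.ne_zero s.2
    refine ⟨C (s : A) hs0, hC _ _, hC0 _ _, B (s : A) hs0 * r, ?_⟩
    rw [← hBC, map_mul, mul_assoc, hcan, ← map_mul]

/-- maps `x ↦ ∑ d a * x * l a` with `l a ∈ L` -/
private def TT (D : Type) [DivisionRing D] (L : Subring D) : Set (D → D) :=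
  {t | ∃ (k : ℕ) (d l : Fin k → D), (∀ a, l a ∈ L) ∧ ∀ x, t x = ∑ a, d a * x * l a}

private theorem TT_add {D : Type} [DivisionRing D] {L : Subring D} {s t : D → D}
    (hs : s ∈ TT D L) (ht : t ∈ TT D L) : (fun x => s x + t x) ∈ TT D L := by
  obtain ⟨k, d, l, hl, h⟩ := hs
  obtain ⟨k', d', l', hl', h'⟩ := ht
  refine ⟨k + k', Fin.append d d', Fin.append l l', ?_, ?_⟩
  · intro a
    refine Fin.addCases (fun i => ?_) (fun i => ?_) a
    · rw [Fin.append_left]; exact hl i
    · rw [Fin.append_right]; exact hl' i
  · intro x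
    rw [Fin.sum_univ_add]
    simp only [Fin.append_left, Fin.append_right, h, h']

private theorem TT_lmul {D : Type} [DivisionRing D] {L : Subring D} {s : D → D} (e : D)
    (hs : s ∈ TT D L) : (fun x => e * s x) ∈ TT D L := by
  obtain ⟨k, d, l, hl, h⟩ := hs
  refine ⟨k, fun a => e * d a, l, hl, ?_⟩
  intro x
  simp only [h, Finset.mul_sum]
  exact Finset.sum_congr rfl fun a _ => by simp only [mul_assoc]

private theorem TT_rmul {D : Type} [DivisionRing D] {L : Subring D} {s : D → D} {e : D}
    (he : e ∈ L) (hs : s ∈ TT D L) : (fun x => s x * e) ∈ TT D L := by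
  obtain ⟨k, d, l, hl, h⟩ := hs
  refine ⟨k, d, fun a => l a * e, fun a => L.mul_mem (hl a) he, ?_⟩
  intro x
  simp only [h, Finset.sum_mul]
  exact Finset.sum_congr rfl fun a _ => by simp only [mul_assoc]

private theorem TT_sub {D : Type} [DivisionRing D] {L : Subring D} {s t : D → D}
    (hs : s ∈ TT D L) (ht : t ∈ TT D L) : (fun x => s x - t x) ∈ TT D L := by
  have := TT_add hs (TT_lmul (-1) ht)
  refine (congrArg (· ∈ TT D L) ?_).mp this
  funext x
  simp [sub_eq_add_neg]

private theorem TT_map_add {D : Type} [DivisionRing D] {L : Subring D} {s : D → D}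
    (hs : s ∈ TT D L) (x y : D) : s (x - y) = s x - s y := by
  obtain ⟨k, d, l, hl, h⟩ := hs
  rw [h, h, h, ← Finset.sum_sub_distrib]
  exact Finset.sum_congr rfl fun a _ => by rw [mul_sub, sub_mul]

private theorem TT_map_mul {D : Type} [DivisionRing D] {L : Subring D}
    (hL : ∀ x ∈ L, ∀ y ∈ L, x * y = y * x) {s : D → D}
    (hs : s ∈ TT D L) (x : D) {c : D} (hc : c ∈ L) : s (x * c) = s x * c := by
  obtain ⟨k, d, l, hl, h⟩ := hs
  rw [h, h, Finset.sum_mul]
  refine Finset.sum_congr rfl fun a _ => ?_
  rw [mul_assoc (d a) (x * c), mul_assoc x c, hL c hc (l a) (hl a)]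
  simp only [mul_assoc]

private theorem TT_dens (D : Type) [DivisionRing D] (L : Subring D)
    (hL : ∀ x ∈ L, ∀ y ∈ L, x * y = y * x)
    (hcen : ∀ x : D, (∀ y ∈ L, x * y = y * x) → x ∈ L) (N : ℕ) :
    ∀ (x : Fin (N + 1) → D)
    (_ : ∀ c : Fin (N + 1) → D, (∀ j, c j ∈ L) → ∑ j, x j * c j = 0 → ∀ j, c j = 0),
    ∃ t ∈ TT D L, t (x 0) = 1 ∧ ∀ j : Fin (N + 1), j ≠ 0 → t (x j) = 0 := by
  induction N with
  | zero =>
    intro x hx
    have h0 : x 0 ≠ 0 := by
      intro h0
      have := hx (fun _ => 1) (fun _ => L.one_mem) (by simp [h0]) 0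
      exact one_ne_zero this
    refine ⟨fun y => (x 0)⁻¹ * y, ⟨1, fun _ => (x 0)⁻¹, fun _ => 1, fun _ => L.one_mem, ?_⟩, ?_, ?_⟩
    · intro y; simp
    · exact inv_mul_cancel₀ h0
    · intro j hj
      exact absurd (Fin.ext (by have := j.isLt; simp only [Fin.val_zero]; omega)) hj
  | succ N ih =>
    intro x hx
    obtain ⟨t1, ht1, h11, h1j⟩ := ih (fun j => x j.succ) (by
      intro c' hc' hs j
      have := hx (Fin.cons 0 c') (by
        intro j
        refine Fin.cases ?_ (fun i => ?_) j
        · simp
        · simpa using hc' i) (by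
        rw [Fin.sum_univ_succ]
        simpa using hs) j.succ
      simpa using this)
    by_cases hc : t1 (x 0) ∈ L
    · set c := t1 (x 0) with hcdef
      obtain ⟨t, ht, h21, h2j⟩ := ih (Fin.cons (x 0 - x 1 * c) (fun j : Fin N => x j.succ.succ)) (by
        intro c' hc' hs j
        have key := hx (Fin.cons (c' 0) (Fin.cons (-(c * c' 0)) (fun i : Fin N => c' i.succ))) (by
          intro j
          refine Fin.cases ?_ (fun i => ?_) j
          · simpa using hc' 0
          · refine Fin.cases ?_ (fun i => ?_) i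
            · simpa using L.mul_mem hc (hc' 0)
            · simpa using hc' i.succ) (by
          rw [Fin.sum_univ_succ, Fin.sum_univ_succ]
          rw [Fin.sum_univ_succ] at hs
          simp only [Fin.cons_zero, Fin.cons_succ] at hs ⊢
          rw [← hs]
          have e1 : x (Fin.succ 0) = x 1 := rfl
          rw [e1]
          noncomm_ring)
        refine Fin.cases ?_ (fun i => ?_) j
        · simpa using key 0
        · simpa using key i.succ.succ)
      simp only [Fin.cons_zero] at h21
      refine ⟨fun y => t y - t (x 1) * t1 y, TT_sub ht (TT_lmul _ ht1), ?_, ?_⟩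
      · show t (x 0) - t (x 1) * t1 (x 0) = 1
        rw [← hcdef, ← TT_map_mul hL ht (x 1) hc, ← TT_map_add ht, h21]
      · intro j
        refine Fin.cases ?_ (fun i => ?_) j
        · intro h; exact absurd rfl h
        · intro _
          refine Fin.cases ?_ (fun i => ?_) i
          · show t (x 1) - t (x 1) * t1 (x (Fin.succ 0)) = 0
            rw [h11, mul_one, sub_self]
          · show t (x i.succ.succ) - t (x 1) * t1 (x i.succ.succ) = 0
            have a := h2j i.succ (Fin.succ_ne_zero i)
            have b := h1j i.succ (Fin.succ_ne_zero i)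
            simp only [Fin.cons_succ] at a
            rw [a, b, mul_zero, sub_zero]
    · have : ∃ y ∈ L, t1 (x 0) * y ≠ y * t1 (x 0) := by
        by_contra hcon
        push Not at hcon
        exact hc (hcen _ hcon)
      obtain ⟨y, hy, hne⟩ := this
      have he : t1 (x 0) * y - y * t1 (x 0) ≠ 0 := sub_ne_zero.2 hne
      refine ⟨fun z => (t1 (x 0) * y - y * t1 (x 0))⁻¹ * (t1 z * y - y * t1 z),
        TT_lmul _ (TT_sub (TT_rmul hy ht1) (TT_lmul _ ht1)), ?_, ?_⟩
      · exact inv_mul_cancel₀ he
      · intro j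
        refine Fin.cases ?_ (fun i => ?_) j
        · intro h; exact absurd rfl h
        · intro _
          refine Fin.cases ?_ (fun i => ?_) i
          · show _ * (t1 (x (Fin.succ 0)) * y - y * t1 (x (Fin.succ 0))) = 0
            rw [h11]; simp
          · show _ * (t1 (x i.succ.succ) * y - y * t1 (x i.succ.succ)) = 0
            have b := h1j i.succ (Fin.succ_ne_zero i)
            rw [b]; simp

/-- density step (Artin-Whaples) -/
theorem density (D : Type) [DivisionRing D] (L : Subring D) (hL : ∀ x ∈ L, ∀ y ∈ L, x * y = y * x)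
    (hcen : ∀ x : D, (∀ y ∈ L, x * y = y * x) → x ∈ L) (N : ℕ) (x : Fin (N + 1) → D)
    (hx : ∀ c : Fin (N + 1) → D, (∀ j, c j ∈ L) → ∑ j, x j * c j = 0 → ∀ j, c j = 0) :
    ∃ (k : ℕ) (d l : Fin k → D), (∀ a, l a ∈ L) ∧ ∑ a, d a * x 0 * l a = 1 ∧
      ∀ j : Fin (N + 1), j ≠ 0 → ∑ a, d a * x j * l a = 0 := by
  obtain ⟨t, ⟨k, d, l, hl, h⟩, h0, h1⟩ := TT_dens D L hL hcen N x hx
  refine ⟨k, d, l, hl, ?_, ?_⟩
  · rw [← h]; exact h0
  · intro j hj
    rw [← h]; exact h1 j hj

-- TARGET:
theorem finite_of_selfcentral_bound (F D : Type) [Field F] [DivisionRing D] [Algebra F D]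
    (L : Subalgebra F D)
    [Module.Finite F L] (hL : ∀ x ∈ L, ∀ y ∈ L, x * y = y * x)
    (hcen : ∀ x : D, (∀ y ∈ L, x * y = y * x) → x ∈ L) (N : ℕ) (x : Fin (N + 1) → D)
    (hx : ∀ c : Fin (N + 1) → D, (∀ j, c j ∈ L) → ∑ j, x j * c j = 0 → ∀ j, c j = 0) :
    N + 1 ≤ Module.finrank F L := by
  classical
  set n := Module.finrank F L with hn
  let b : Module.Basis (Fin n) F L := Module.finBasis F L
  have key : ∀ j : Fin (N + 1), ∃ E : Fin n → D, ∑ i, E i * x j * (b i : D) = 1 ∧
      ∀ j' : Fin (N + 1), j' ≠ j → ∑ i, E i * x j' * (b i : D) = 0 := by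
    intro j
    obtain ⟨k, d, l, hl, h1, h0⟩ := density D L.toSubring (fun x hx y hy => hL x hx y hy)
      (fun x h => hcen x (fun y hy => h y hy)) N (fun i => x (Equiv.swap 0 j i)) (by
        intro c hc hsum i
        have := hx (fun i => c (Equiv.swap 0 j i)) (fun i => hc _) (by
          rw [← hsum]
          apply Fintype.sum_equiv (Equiv.swap 0 j)
          intro i
          simp) (Equiv.swap 0 j i)
        simpa using this)
    have hexp : ∀ a, l a = ∑ i, (b.repr ⟨l a, hl a⟩ i) • (b i : D) := by
      intro a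
      have := congrArg (fun z : L => (z : D)) (b.sum_repr ⟨l a, hl a⟩)
      simp only [AddSubmonoidClass.coe_finsetSum] at this
      exact this.symm
    have ht : ∀ y : D, ∑ a, d a * y * l a =
        ∑ i, (∑ a, (b.repr ⟨l a, hl a⟩ i) • d a) * y * (b i : D) := by
      intro y
      calc ∑ a, d a * y * l a = ∑ a, ∑ i, (b.repr ⟨l a, hl a⟩ i) • (d a * y * (b i : D)) := by
            refine Finset.sum_congr rfl fun a _ => ?_
            conv_lhs => rw [hexp a]
            rw [Finset.mul_sum]
            refine Finset.sum_congr rfl fun i _ => ?_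
            rw [mul_smul_comm]
        _ = ∑ i, ∑ a, (b.repr ⟨l a, hl a⟩ i) • (d a * y * (b i : D)) := Finset.sum_comm
        _ = _ := by
            refine Finset.sum_congr rfl fun i _ => ?_
            rw [Finset.sum_mul, Finset.sum_mul]
            refine Finset.sum_congr rfl fun a _ => ?_
            rw [smul_mul_assoc, smul_mul_assoc]
    refine ⟨fun i => ∑ a, (b.repr ⟨l a, hl a⟩ i) • d a, ?_, ?_⟩
    · rw [← ht]
      simpa using h1
    · intro j' hj'
      rw [← ht]
      have h2 := h0 (Equiv.swap 0 j j') (by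
        intro h
        apply hj'
        have h3 : Equiv.swap 0 j (Equiv.swap 0 j j') = Equiv.swap 0 j 0 := by rw [h]
        simpa using h3)
      simpa using h2
  choose E hE1 hE0 using key
  have hind : LinearIndependent D E := by
    rw [Fintype.linearIndependent_iff]
    intro e he j0
    have h1 : ∑ i, (∑ j, e j * E j i) * x j0 * (b i : D) = 0 := by
      apply Finset.sum_eq_zero
      intro i _
      have : ∑ j, e j * E j i = 0 := by
        have := congrFun he i
        simpa using this
      rw [this]; simp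
    have h2 : ∑ i, (∑ j, e j * E j i) * x j0 * (b i : D) = e j0 := by
      calc ∑ i, (∑ j, e j * E j i) * x j0 * (b i : D)
          = ∑ i, ∑ j, e j * (E j i * x j0 * (b i : D)) := by
            refine Finset.sum_congr rfl fun i _ => ?_
            rw [Finset.sum_mul, Finset.sum_mul]
            refine Finset.sum_congr rfl fun j _ => ?_
            simp only [mul_assoc]
        _ = ∑ j, ∑ i, e j * (E j i * x j0 * (b i : D)) := Finset.sum_comm
        _ = ∑ j, e j * ∑ i, (E j i * x j0 * (b i : D)) := by
            refine Finset.sum_congr rfl fun j _ => ?_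
            rw [Finset.mul_sum]
        _ = e j0 := by
            rw [Finset.sum_eq_single j0]
            · rw [hE1, mul_one]
            · intro j _ hj
              rw [hE0 j j0 hj.symm, mul_zero]
            · intro h; exact absurd (Finset.mem_univ _) h
    rw [← h2, h1]
  have := hind.fintype_card_le_finrank
  simpa using this

/-- a division algebra with a finite-dimensional self-centralising commutative subalgebra is finite
dimensional -/
theorem finite_of_selfcentral (F D : Type) [Field F] [DivisionRing D] [Algebra F D] (L : Subalgebra F D)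
    [Module.Finite F L] (hL : ∀ x ∈ L, ∀ y ∈ L, x * y = y * x)
    (hcen : ∀ x : D, (∀ y ∈ L, x * y = y * x) → x ∈ L) : Module.Finite F D := by
  classical
  let Q : ℕ → Prop := fun m => ∃ x : Fin m → D,
    ∀ c : Fin m → D, (∀ j, c j ∈ L) → ∑ j, x j * c j = 0 → ∀ j, c j = 0
  have hQ0 : Q 0 := ⟨fun i => i.elim0, fun _ _ _ j => j.elim0⟩
  have hQb : ¬ Q (Module.finrank F L + 1) := by
    rintro ⟨x, hx⟩
    have := finite_of_selfcentral_bound F D L hL hcen _ x hx
    omega
  have hex : ∃ m, ¬ Q (m + 1) := ⟨_, hQb⟩
  obtain ⟨m, hm, hm1⟩ : ∃ m, Q m ∧ ¬ Q (m + 1) := by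
    by_contra hcon
    push Not at hcon
    have : ∀ m, Q m := by
      intro m
      induction m with
      | zero => exact hQ0
      | succ k ih => exact hcon k ih
    exact hQb (this _)
  obtain ⟨x, hx⟩ := hm
  let φ : (Fin m → L) →ₗ[F] D :=
    ∑ j, (LinearMap.mulLeft F (x j)) ∘ₗ (L.val.toLinearMap) ∘ₗ (LinearMap.proj j)
  have hφ : ∀ c : Fin m → L, φ c = ∑ j, x j * (c j : D) := by
    intro c
    simp [φ]
  refine Module.Finite.of_surjective φ ?_
  intro y
  have hinv : ∀ c ∈ L, c⁻¹ ∈ L := by
    intro c hc
    by_cases h0 : c = 0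
    · rw [h0, inv_zero]; exact L.zero_mem
    · apply hcen
      intro z hz
      have h1 := hL c hc z hz
      calc c⁻¹ * z = c⁻¹ * (z * c) * c⁻¹ := by
            rw [mul_assoc, mul_assoc, mul_inv_cancel₀ h0, mul_one]
        _ = c⁻¹ * (c * z) * c⁻¹ := by rw [h1]
        _ = z * c⁻¹ := by rw [← mul_assoc, inv_mul_cancel₀ h0, one_mul]
  by_contra hy
  apply hm1
  refine ⟨Fin.cons y x, ?_⟩
  intro c hc hsum
  rw [Fin.sum_univ_succ] at hsum
  simp only [Fin.cons_zero, Fin.cons_succ] at hsum
  have hc0 : c 0 = 0 := by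
    by_contra hc0
    apply hy
    refine ⟨fun j => ⟨-(c j.succ * (c 0)⁻¹), L.neg_mem (L.mul_mem (hc _) (hinv _ (hc 0)))⟩, ?_⟩
    rw [hφ]
    have h1 : y * c 0 = -∑ j : Fin m, x j * c j.succ := eq_neg_of_add_eq_zero_left hsum
    calc ∑ j : Fin m, x j * (-(c j.succ * (c 0)⁻¹))
        = (-∑ j : Fin m, x j * c j.succ) * (c 0)⁻¹ := by
          rw [← Finset.sum_neg_distrib, Finset.sum_mul]
          refine Finset.sum_congr rfl fun j _ => ?_
          rw [mul_neg, neg_mul, mul_assoc]
      _ = y := by rw [← h1, mul_assoc, mul_inv_cancel₀ hc0, mul_one]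
  rw [hc0, mul_zero, zero_add] at hsum
  have h2 := hx (fun j => c j.succ) (fun j => hc _) hsum
  intro j
  refine Fin.cases hc0 (fun i => h2 i) j

/-- maximal commutative subalgebra, finitely generated by the ascending chain condition -/
theorem max_comm (K A : Type) [Field K] [Ring A] [Algebra K A] [WellFoundedGT (Subalgebra K A)] :
    ∃ s : Finset A, (∀ x ∈ s, ∀ y ∈ s, x * y = y * x) ∧
      ∀ a : A, (∀ x ∈ s, a * x = x * a) → a ∈ Algebra.adjoin K (s : Set A) := by
  classical
  let T : Set (Subalgebra K A) := {B | ∃ s : Finset A, (∀ x ∈ s, ∀ y ∈ s, x * y = y * x) ∧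
    B = Algebra.adjoin K (s : Set A)}
  have hT : T.Nonempty := ⟨_, ∅, by simp, rfl⟩
  obtain ⟨B, ⟨s, hs, hB⟩, hmax⟩ := wellFounded_gt.has_min T hT
  refine ⟨s, hs, fun a ha => ?_⟩
  have h1 : Algebra.adjoin K ((insert a s : Finset A) : Set A) ∈ T := by
    refine ⟨insert a s, ?_, rfl⟩
    intro x hx y hy
    rw [Finset.mem_insert] at hx hy
    rcases hx with rfl | hx <;> rcases hy with rfl | hy
    · rfl
    · exact ha y hy
    · exact (ha x hx).symm
    · exact hs x hx y hy
  have h2 := hmax _ h1
  have h3 : B ≤ Algebra.adjoin K ((insert a s : Finset A) : Set A) := by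
    rw [hB]
    apply Algebra.adjoin_mono
    simp
  have h4 : B = Algebra.adjoin K ((insert a s : Finset A) : Set A) := by
    by_contra hne
    exact h2 (lt_of_le_of_ne h3 hne)
  rw [← hB, h4]
  apply Algebra.subset_adjoin
  simp

theorem adjoin_finite_aux (F B : Type) [Field F] [CommRing B] [Algebra F B] (t : Set B)
    (ht : t.Finite) (hi : ∀ x ∈ t, IsIntegral F x) (htop : Algebra.adjoin F t = ⊤) :
    Module.Finite F B := by
  have h := fg_adjoin_of_finite (R := F) ht hi
  rw [htop, Algebra.top_toSubmodule] at h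
  exact ⟨h⟩

theorem adjoin_finite_aux2 (F B : Type) [Field F] [Ring B] [Algebra F B]
    (hcomm : ∀ x y : B, x * y = y * x) (t : Set B)
    (ht : t.Finite) (hi : ∀ x ∈ t, IsIntegral F x) (htop : Algebra.adjoin F t = ⊤) :
    Module.Finite F B := by
  let i : CommRing B := { (inferInstance : Ring B) with mul_comm := hcomm }
  exact adjoin_finite_aux F B t ht hi htop

/-- finitely many commuting algebraic elements generate a finite dimensional commutative subalgebra -/
theorem adjoin_finite (F D : Type) [Field F] [Ring D] [Algebra F D] (s : Finset D)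
    (hc : ∀ x ∈ s, ∀ y ∈ s, x * y = y * x) (hi : ∀ x ∈ s, IsIntegral F x) :
    Module.Finite F (Algebra.adjoin F (s : Set D)) ∧
      ∀ x ∈ Algebra.adjoin F (s : Set D), ∀ y ∈ Algebra.adjoin F (s : Set D), x * y = y * x := by
  have hc' : ∀ a ∈ (s : Set D), ∀ b ∈ (s : Set D), a * b = b * a := by
    intro a ha b hb
    exact hc a (Finset.mem_coe.mp ha) b (Finset.mem_coe.mp hb)
  have hcomm : ∀ x ∈ Algebra.adjoin F (s : Set D), ∀ y ∈ Algebra.adjoin F (s : Set D),
      x * y = y * x := by
    have h := Algebra.isMulCommutative_adjoin F hc'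
    intro x hx y hy
    have h2 := h.is_comm.comm ⟨x, hx⟩ ⟨y, hy⟩
    exact congrArg Subtype.val h2
  refine ⟨?_, hcomm⟩
  refine adjoin_finite_aux2 F (Algebra.adjoin F (s : Set D)) ?_
    (((↑) : Algebra.adjoin F (s : Set D) → D) ⁻¹' (s : Set D)) ?_ ?_
    Algebra.adjoin_adjoin_coe_preimage
  · intro x y
    exact Subtype.ext (hcomm x.1 x.2 y.1 y.2)
  · exact Set.Finite.preimage Subtype.val_injective.injOn s.finite_toSet
  · intro x hx
    have h1 : IsIntegral F ((Algebra.adjoin F (s : Set D)).val x) := hi _ (Finset.mem_coe.mp hx)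
    obtain ⟨p, hp, hpx⟩ := h1
    refine ⟨p, hp, ?_⟩
    apply Subtype.val_injective
    rw [← Polynomial.aeval_def] at hpx ⊢
    rw [Polynomial.aeval_algHom_apply] at hpx
    exact hpx

-- TARGET:
/-- main structural statement: algebraic over the centre + ACC on subalgebras gives finite dimension over the
centre of the division ring of fractions -/
theorem main_finite (K A : Type) [Field K] [Ring A] [Algebra K A] [Nontrivial A] [NoZeroDivisors A]
    [WellFoundedGT (Subalgebra K A)]
    (halg : ∀ a : A, ∃ p : Polynomial (Subring.center A), p ≠ 0 ∧ Polynomial.aeval a p = 0) :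
    ∃ (D : Type) (_ : DivisionRing D) (i : A →+* D), Function.Injective i ∧
      Module.Finite (Subring.center D) D := by
  classical
  obtain ⟨D, instD, i, hinj, hcen, hfrac⟩ := to_division A halg
  obtain ⟨s, hsc, hsm⟩ := max_comm K A
  refine ⟨D, instD, i, hinj, ?_⟩
  -- the map of the centres
  let j : Subring.center A →+* Subring.center D :=
    { toFun := fun c => ⟨i c.1, hcen c.1 c.2⟩
      map_one' := Subtype.ext (map_one i)
      map_mul' := fun a b => Subtype.ext (map_mul i _ _)
      map_zero' := Subtype.ext (map_zero i)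
      map_add' := fun a b => Subtype.ext (map_add i _ _) }
  have hj : Function.Injective j := fun a b hab =>
    Subtype.ext (hinj (congrArg Subtype.val hab))
  have hint : ∀ x ∈ s.image i, IsIntegral (Subring.center D) x := by
    intro x hx
    obtain ⟨a, _, rfl⟩ := Finset.mem_image.1 hx
    obtain ⟨p, hp0, hp⟩ := halg a
    rw [← isAlgebraic_iff_isIntegral]
    refine ⟨p.map j, (Polynomial.map_ne_zero_iff hj).2 hp0, ?_⟩
    rw [Polynomial.aeval_def, Polynomial.eval₂_map]
    have h1 := Polynomial.hom_eval₂ p (algebraMap (Subring.center A) A) i a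
    rw [← Polynomial.aeval_def, hp, map_zero] at h1
    rw [h1]
    rfl
  have hcomm : ∀ x ∈ s.image i, ∀ y ∈ s.image i, x * y = y * x := by
    intro x hx y hy
    obtain ⟨a, ha, rfl⟩ := Finset.mem_image.1 hx
    obtain ⟨b, hb, rfl⟩ := Finset.mem_image.1 hy
    rw [← map_mul, ← map_mul, hsc a ha b hb]
  obtain ⟨hfin, hLc⟩ := adjoin_finite (Subring.center D) D (s.image i) hcomm hint
  have hcenL : ∀ z ∈ Subring.center D,
      z ∈ Algebra.adjoin (Subring.center D) ((s.image i : Finset D) : Set D) := fun z hz =>
    Subalgebra.algebraMap_mem _ (⟨z, hz⟩ : Subring.center D)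
  refine finite_of_selfcentral (Subring.center D) D
    (Algebra.adjoin (Subring.center D) ((s.image i : Finset D) : Set D)) hLc ?_
  intro d hd
  obtain ⟨c, hc, hc0, a, hca⟩ := hfrac d
  have hic : i c ≠ 0 := fun h => hc0 (hinj (h.trans (map_zero i).symm))
  have hicz : ∀ z, z * i c = i c * z := fun z => Subring.mem_center_iff.1 (hcen c hc) z
  have ha : a ∈ Algebra.adjoin K (s : Set A) := by
    refine hsm a fun x hx => ?_
    apply hinj
    have hx' : i x ∈ Algebra.adjoin (Subring.center D) ((s.image i : Finset D) : Set D) :=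
      Algebra.subset_adjoin (Finset.mem_coe.2 (Finset.mem_image_of_mem i hx))
    have h1 := hd (i x) hx'
    rw [map_mul, map_mul, ← hca, mul_assoc, h1, ← mul_assoc, ← hicz (i x), mul_assoc]
  have hia : i a ∈ Algebra.adjoin (Subring.center D) ((s.image i : Finset D) : Set D) := by
    refine Algebra.adjoin_induction (p := fun x _ => i x ∈
      Algebra.adjoin (Subring.center D) ((s.image i : Finset D) : Set D)) ?_ ?_ ?_ ?_ ha
    · intro x hx
      exact Algebra.subset_adjoin (Finset.mem_coe.2 (Finset.mem_image_of_mem i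
        (Finset.mem_coe.1 hx)))
    · intro k
      exact hcenL _ (hcen _ (Subring.mem_center_iff.2 fun z => (Algebra.commutes k z).symm))
    · intro x y _ _ hx hy
      rw [map_add]
      exact Subalgebra.add_mem _ hx hy
    · intro x y _ _ hx hy
      rw [map_mul]
      exact Subalgebra.mul_mem _ hx hy
  have hd2 : d = (i c)⁻¹ * i a := by
    rw [← hca, ← mul_assoc, inv_mul_cancel₀ hic, one_mul]
  rw [hd2]
  refine Subalgebra.mul_mem _ (hcenL _ ?_) hia
  rw [Subring.mem_center_iff]
  intro z
  have h1 := hicz z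
  have h2 : (i c)⁻¹ * (z * i c) * (i c)⁻¹ = (i c)⁻¹ * (i c * z) * (i c)⁻¹ := by rw [h1]
  rw [← mul_assoc, mul_assoc ((i c)⁻¹ * z), mul_inv_cancel₀ hic, mul_one, ← mul_assoc,
    inv_mul_cancel₀ hic, one_mul] at h2
  exact h2.symm

-- TARGET:
theorem pi_of_algebraic (K A : Type) [Field K] [Ring A] [Algebra K A] [NoZeroDivisors A]
    [WellFoundedGT (Subalgebra K A)]
    (halg : ∀ a : A, ∃ p : Polynomial (Subring.center A), p ≠ 0 ∧ Polynomial.aeval a p = 0) :
    ∃ (n : ℕ) (f : FreeAlgebra K (Fin n)), f ≠ 0 ∧ ∀ v : Fin n → A, FreeAlgebra.lift K v f = 0 := by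
  rcases subsingleton_or_nontrivial A with hA | hA
  · exact ⟨0, 1, one_ne_zero, fun v => Subsingleton.elim _ _⟩
  · obtain ⟨D, hD, i, hi, hfin⟩ := main_finite K A halg
    obtain ⟨f, hf0, hf⟩ := std_poly K (Module.finrank (Subring.center D) D + 1)
    refine ⟨_, f, hf0, fun v => ?_⟩
    apply hi
    rw [map_zero, hf A v, map_sum]
    have h := std_vanish (Subring.center D) D (Module.finrank (Subring.center D) D + 1)
      (Nat.lt_succ_self _) (fun j => i (v j))
    rw [← h]
    refine Finset.sum_congr rfl fun σ _ => ?_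
    rw [map_zsmul, map_list_prod, List.map_ofFn]
    rfl

theorem relation_aux (K : Type) [Field K] (n : ℕ) :
    ∃ T : Subalgebra K (Polynomial (Polynomial K)), ∀ F, F ∈ T ↔
      ((∀ j, 1 ≤ j → (F.coeff j).coeff 0 = 0) ∧ (∀ j, n < j → (F.coeff j).coeff 1 = 0)) := by
  refine ⟨{ carrier := {F | (∀ j, 1 ≤ j → (F.coeff j).coeff 0 = 0) ∧
              (∀ j, n < j → (F.coeff j).coeff 1 = 0)}
            mul_mem' := ?_
            add_mem' := ?_
            algebraMap_mem' := ?_ }, fun F => Iff.rfl⟩
  · rintro F G ⟨hF0, hF1⟩ ⟨hG0, hG1⟩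
    constructor
    · intro j hj
      rw [Polynomial.coeff_mul, Polynomial.finsetSum_coeff]
      refine Finset.sum_eq_zero fun p hp => ?_
      rw [Finset.HasAntidiagonal.mem_antidiagonal] at hp
      rw [Polynomial.mul_coeff_zero]
      rcases Nat.eq_zero_or_pos p.1 with h | h
      · rw [hG0 p.2 (by omega), mul_zero]
      · rw [hF0 p.1 h, zero_mul]
    · intro j hj
      rw [Polynomial.coeff_mul, Polynomial.finsetSum_coeff]
      refine Finset.sum_eq_zero fun p hp => ?_
      rw [Finset.HasAntidiagonal.mem_antidiagonal] at hp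
      rw [Polynomial.mul_coeff_one]
      have e1 : (F.coeff p.1).coeff 0 * (G.coeff p.2).coeff 1 = 0 := by
        rcases Nat.eq_zero_or_pos p.1 with h | h
        · rw [hG1 p.2 (by omega), mul_zero]
        · rw [hF0 p.1 h, zero_mul]
      have e2 : (F.coeff p.1).coeff 1 * (G.coeff p.2).coeff 0 = 0 := by
        rcases Nat.eq_zero_or_pos p.2 with h | h
        · rw [hF1 p.1 (by omega), zero_mul]
        · rw [hG0 p.2 h, mul_zero]
      rw [e1, e2, add_zero]
  · rintro F G ⟨hF0, hF1⟩ ⟨hG0, hG1⟩
    constructor
    · intro j hj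
      rw [Polynomial.coeff_add, Polynomial.coeff_add, hF0 j hj, hG0 j hj, add_zero]
    · intro j hj
      rw [Polynomial.coeff_add, Polynomial.coeff_add, hF1 j hj, hG1 j hj, add_zero]
  · intro k
    have hk : (algebraMap K (Polynomial (Polynomial K))) k = Polynomial.C (Polynomial.C k) := rfl
    rw [hk]
    constructor
    · intro j hj
      rw [Polynomial.coeff_C_of_ne_zero (by omega), Polynomial.coeff_zero]
    · intro j hj
      rw [Polynomial.coeff_C_of_ne_zero (by omega), Polynomial.coeff_zero]

/-- `x`, `a` commute and the subalgebras satisfy ACC: there is a nontrivial polynomial relation -/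
theorem relation (K A : Type) [Field K] [Ring A] [Algebra K A] [WellFoundedGT (Subalgebra K A)]
    (x a : A) (hxa : x * a = a * x) :
    ∃ G : Polynomial (Polynomial K), G ≠ 0 ∧
      G.sum (fun e c => Polynomial.aeval x c * a ^ e) = 0 := by
  choose T hT using relation_aux K
  have hcomm : ∀ c : Polynomial K, Commute ((Polynomial.aeval x : Polynomial K →ₐ[K] A).toRingHom c) a := by
    intro c
    show Commute (Polynomial.aeval x c) a
    induction c using Polynomial.induction_on' with
    | add p q hp hq =>
      rw [map_add]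
      exact hp.add_left hq
    | monomial n k =>
      rw [Polynomial.aeval_monomial]
      exact (show Commute (algebraMap K A k) a from Algebra.commutes k a).mul_left
        ((show Commute x a from hxa).pow_left n)
  let φ0 : Polynomial (Polynomial K) →+* A :=
    Polynomial.eval₂RingHom' (Polynomial.aeval x : Polynomial K →ₐ[K] A).toRingHom a hcomm
  have hφ0 : ∀ G, φ0 G = G.sum (fun e c => Polynomial.aeval x c * a ^ e) := by
    intro G
    show Polynomial.eval₂ _ a G = _
    rw [Polynomial.eval₂_eq_sum]
    rfl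
  let φ : Polynomial (Polynomial K) →ₐ[K] A :=
    { φ0 with
      commutes' := by
        intro k
        show φ0 (Polynomial.C (Polynomial.C k)) = _
        show Polynomial.eval₂ _ a (Polynomial.C (Polynomial.C k)) = _
        rw [Polynomial.eval₂_C]
        exact Polynomial.aeval_C x k }
  have hmono : Monotone (fun n => (T n).map φ) := by
    intro n m hnm
    apply Subalgebra.map_mono
    intro F hF
    rw [hT] at hF ⊢
    exact ⟨hF.1, fun j hj => hF.2 j (lt_of_le_of_lt hnm hj)⟩
  obtain ⟨n, hn⟩ := WellFoundedGT.monotone_chain_condition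
    (⟨fun n => (T n).map φ, hmono⟩ : ℕ →o Subalgebra K A)
  have h1 : (T n).map φ = (T (n + 1)).map φ := hn (n + 1) (Nat.le_succ n)
  have h2 : φ (Polynomial.monomial (n + 1) Polynomial.X) ∈ (T (n + 1)).map φ := by
    refine Subalgebra.mem_map.mpr ⟨_, ?_, rfl⟩
    rw [hT]
    constructor
    · intro j hj
      rw [Polynomial.coeff_monomial]
      split_ifs
      · exact Polynomial.coeff_X_zero
      · exact Polynomial.coeff_zero _
    · intro j hj
      rw [Polynomial.coeff_monomial, if_neg (by omega), Polynomial.coeff_zero]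
  rw [← h1] at h2
  obtain ⟨F, hF, hFe⟩ := Subalgebra.mem_map.mp h2
  refine ⟨Polynomial.monomial (n + 1) Polynomial.X - F, ?_, ?_⟩
  · intro h0
    have h3 := congrArg (fun G : Polynomial (Polynomial K) => (G.coeff (n + 1)).coeff 1) h0
    simp only [Polynomial.coeff_sub, Polynomial.coeff_zero] at h3
    rw [((hT n F).mp hF).2 (n + 1) (Nat.lt_succ_self n), Polynomial.coeff_monomial, if_pos rfl,
      Polynomial.coeff_X_one, sub_zero] at h3
    exact one_ne_zero h3
  · rw [← hφ0]
    show φ (Polynomial.monomial (n + 1) Polynomial.X - F) = 0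
    rw [map_sub, hFe, sub_self]

-- TARGET:
theorem alg_aux (K A : Type) [Field K] [Ring A] [Algebra K A] (x : A)
    (hx : x ∈ Subring.center A) (c : Polynomial K) :
    Polynomial.aeval x c ∈ Subring.center A := by
  induction c using Polynomial.induction_on' with
  | add p q hp hq => rw [map_add]; exact add_mem hp hq
  | monomial n r =>
    rw [Polynomial.aeval_monomial]
    refine mul_mem ?_ (pow_mem hx n)
    rw [Subring.mem_center_iff]
    intro g
    exact (Algebra.commutes r g).symm

/-- a central transcendental element makes everything algebraic over the centre -/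
theorem alg_of_transcendental (K A : Type) [Field K] [Ring A] [Algebra K A]
    [WellFoundedGT (Subalgebra K A)] (x : A) (hx : x ∈ Subring.center A) (hT : Transcendental K x)
    (a : A) : ∃ p : Polynomial (Subring.center A), p ≠ 0 ∧ Polynomial.aeval a p = 0 := by
  obtain ⟨G, hG, hGs⟩ := relation K A x a ((Subring.mem_center_iff.1 hx a).symm)
  let φ : Polynomial K →+* Subring.center A :=
    (Polynomial.aeval x : Polynomial K →ₐ[K] A).toRingHom.codRestrict (Subring.center A)
      (alg_aux K A x hx)
  have hφ : ∀ c, ((φ c : Subring.center A) : A) = Polynomial.aeval x c := fun c => rfl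
  have hinj : Function.Injective φ := by
    intro c c' h
    have h1 : Polynomial.aeval x c = Polynomial.aeval x c' := by
      rw [← hφ, ← hφ, h]
    exact (transcendental_iff_injective.1 hT) h1
  refine ⟨G.map φ, ?_, ?_⟩
  · rw [Ne, Polynomial.map_eq_zero_iff hinj]
    exact hG
  · rw [Polynomial.aeval_def, Polynomial.eval₂_map, Polynomial.eval₂_eq_sum, ← hGs]
    rfl

/-- centralisers inherit the chain condition -/
theorem acc_centralizer (K A : Type) [Field K] [Ring A] [Algebra K A] [WellFoundedGT (Subalgebra K A)]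
    (B : Subalgebra K A) : WellFoundedGT (Subalgebra K B) := by
  have hinj : Function.Injective (fun S : Subalgebra K B => S.map B.val) :=
    Subalgebra.map_injective (by exact Subtype.val_injective)
  have hmono : Monotone (fun S : Subalgebra K B => S.map B.val) := fun S T h => Subalgebra.map_mono h
  exact (hmono.strictMono_of_injective hinj).wellFoundedGT

/-- the subalgebra `K + y W` -/
def cofAux (K A : Type) [Field K] [Ring A] [Algebra K A] (I : Submodule K A)
    (hI : ∀ a : A, ∀ y ∈ I, a * y ∈ I ∧ y * a ∈ I) (y : A) (hy : y ∈ I) (W : Submodule K (A ⧸ I)) :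
    Subalgebra K A where
  carrier := {a | ∃ k : K, ∃ w : A, I.mkQ w ∈ W ∧ a = algebraMap K A k + y * w}
  mul_mem' := by
    rintro a b ⟨k, w, hw, rfl⟩ ⟨k', w', hw', rfl⟩
    refine ⟨k * k', k • w' + k' • w + w * y * w', ?_, ?_⟩
    · have h0 : I.mkQ (w * y * w') = 0 := by
        rw [Submodule.mkQ_apply, Submodule.Quotient.mk_eq_zero]
        exact (hI w' (w * y) (hI w y hy).1).2
      rw [map_add, map_add, map_smul, map_smul, h0, add_zero]
      exact W.add_mem (W.smul_mem _ hw') (W.smul_mem _ hw)
    · have e1 : algebraMap K A k * (y * w') = y * (algebraMap K A k * w') := by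
        rw [← mul_assoc, Algebra.commutes, mul_assoc]
      have e2 : (y * w) * algebraMap K A k' = y * (algebraMap K A k' * w) := by
        rw [mul_assoc, ← Algebra.commutes k' w]
      rw [add_mul, mul_add, mul_add, e1, e2, Algebra.smul_def, Algebra.smul_def, map_mul, mul_add, mul_add]
      have e3 : y * w * (y * w') = y * (w * y * w') := by simp only [mul_assoc]
      rw [e3]
      abel
  add_mem' := by
    rintro a b ⟨k, w, hw, rfl⟩ ⟨k', w', hw', rfl⟩
    refine ⟨k + k', w + w', ?_, ?_⟩
    · rw [map_add]; exact W.add_mem hw hw'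
    · rw [map_add, mul_add]; abel
  algebraMap_mem' := by
    intro k
    exact ⟨k, 0, by simp, by simp⟩

/-- every nonzero two-sided ideal has finite codimension -/
theorem cofinite_ideal (K A : Type) [Field K] [Ring A] [Algebra K A] [NoZeroDivisors A]
    [WellFoundedGT (Subalgebra K A)] (I : Submodule K A)
    (hI : ∀ a : A, ∀ y ∈ I, a * y ∈ I ∧ y * a ∈ I) (hne : I ≠ ⊥) : Module.Finite K (A ⧸ I) := by
  obtain ⟨y, hy, hy0⟩ := (Submodule.ne_bot_iff I).1 hne
  by_cases h1 : (1 : A) ∈ I
  · have htop : I = ⊤ := by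
      rw [eq_top_iff]
      intro a _
      have := (hI a 1 h1).1
      rwa [mul_one] at this
    subst htop
    haveI : Subsingleton (A ⧸ (⊤ : Submodule K A)) := Submodule.Quotient.subsingleton_iff.2 rfl
    infer_instance
  · have key : ∀ W1 W2 : Submodule K (A ⧸ I), cofAux K A I hI y hy W1 ≤ cofAux K A I hI y hy W2 → W1 ≤ W2 := by
      intro W1 W2 h q hq
      obtain ⟨w, rfl⟩ := Submodule.mkQ_surjective I q
      have hm : y * w ∈ cofAux K A I hI y hy W1 := ⟨0, w, hq, by simp⟩
      obtain ⟨k, w2, hw2, he⟩ := h hm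
      have he' : algebraMap K A k = y * (w - w2) := by
        rw [mul_sub, he]; abel
      have hk : k = 0 := by
        by_contra hk
        apply h1
        have hkI : algebraMap K A k ∈ I := by
          rw [he']; exact (hI _ y hy).2
        have := I.smul_mem k⁻¹ hkI
        rwa [Algebra.smul_def, ← map_mul, inv_mul_cancel₀ hk, map_one] at this
      rw [hk, map_zero] at he'
      rcases mul_eq_zero.1 he'.symm with h0 | h0
      · exact absurd h0 hy0
      · rw [sub_eq_zero.1 h0]; exact hw2
    have mono : Monotone (cofAux K A I hI y hy) := by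
      rintro W1 W2 h a ⟨k, w, hw, rfl⟩
      exact ⟨k, w, h hw, rfl⟩
    have inj : Function.Injective (cofAux K A I hI y hy) := fun W1 W2 h =>
      le_antisymm (key W1 W2 h.le) (key W2 W1 h.ge)
    haveI : WellFoundedGT (Submodule K (A ⧸ I)) := (mono.strictMono_of_injective inj).wellFoundedGT
    haveI : IsNoetherian K (A ⧸ I) := isNoetherian_iff'.2 inferInstance
    infer_instance

-- TARGET:
theorem finite_of_algebraic (K A : Type) [Field K] [Ring A] [Algebra K A] [Nontrivial A] [NoZeroDivisors A]
    [WellFoundedGT (Subalgebra K A)] (halg : ∀ a : A, IsAlgebraic K a) : Module.Finite K A := by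
  classical
  haveI : IsDomain A := NoZeroDivisors.to_isDomain A
  have hint : ∀ a : A, IsIntegral K a := fun a => (halg a).isIntegral
  have hu : ∀ a : A, IsUnit a ∨ a = 0 := by
    intro a
    by_cases h : a = 0
    · exact Or.inr h
    · exact Or.inl ((hint a).isUnit h)
  obtain ⟨s, hs, hcen⟩ := max_comm K A
  obtain ⟨hfin, hcomm⟩ := adjoin_finite K A s hs (fun x _ => hint x)
  letI : DivisionRing A := DivisionRing.ofIsUnitOrEqZero hu
  refine finite_of_selfcentral K A (Algebra.adjoin K (s : Set A)) hcomm ?_
  intro x hx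
  refine hcen x (fun y hy => hx y (Algebra.subset_adjoin hy))

end Pool.Agent.Helper877.Acc
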